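import Pool.Agent.Helper32.CL.St2
import Pool.Agent.Helper80.PI2.M_IA
import Pool.Agent.Helper23.SH.M_TF

/-!
Project CL (MP_b2fa09_gt), module IV: invariance under reparametrisation.
-/

set_option autoImplicit false

namespace Pool.Agent.Helper8.CL

open Helper32.CL Helper35.PI Helper35.PI2
open scoped ContDiff Manifold Topology ENNReal BigOperators Matrix Kronecker
open MeasureTheory Set Filter

variable {n N : ℕ}

/-- the hypotheses at one point, of finite order -/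
structure QH (l : ℝ) (f h : EE n → EE N) (φ : EE n → EE n) (z : EE n) : Prop where
  hf : ContDiffAt ℝ 2 f (φ z)
  hφ : ContDiffAt ℝ 2 φ z
  hh : h =ᶠ[𝓝 z] (fun y => f (φ y))
  li : LI h z
  di : DifferentiableAt ℝ (i4 l f) (φ z)

/-- the Jacobian matrix -/
noncomputable def jac (φ : EE n → EE n) (z : EE n) : Matrix (Fin n) (Fin n) ℝ :=
  Matrix.of fun i a => (fderiv ℝ φ z (ee i)) a

section

variable {l : ℝ} {f h : EE n → EE N} {φ : EE n → EE n} {z : EE n}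

theorem QH.hJ (q : QH l f h φ z) (i : Fin n) :
    dv1 h z i = ∑ a, jac φ z i a • dv1 f (φ z) a := by
  rw [Helper67.PI.first f h φ z q.hf q.hφ q.hh i, Helper67.PI.fderiv_expand]
  rfl

theorem QH.sff (hNR : StNR) (q : QH l f h φ z) (i j : Fin n) :
    sff h z i j = ∑ a, ∑ b, (jac φ z i a * jac φ z j b) • sff f (φ z) a b := by
  obtain ⟨hLIf, hspan, -⟩ := Helper67.PI.spans f h z (φ z) (jac φ z) q.hJ q.li
  have hnrm := Helper67.PI.nrm_eq hNR f h z (φ z) hLIf q.li hspan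
  obtain ⟨-, f2, -, -, f5, f6, -, -⟩ := hNR n N f (φ z) hLIf
  let T : EE N →ₗ[ℝ] EE N :=
    { toFun := nrm f (φ z), map_add' := f5, map_smul' := f6 }
  have hT : ∀ v, T v = nrm f (φ z) v := fun v => rfl
  unfold Helper35.PI.sff
  rw [hnrm, Helper67.PI.second f h φ z q.hf q.hφ q.hh i j, f5,
    f2 _ (Helper67.PI.fderiv_mem f (φ z) _), add_zero,
    Helper67.PI.second_expand f (φ z) q.hf, ← hT, map_sum]
  refine Finset.sum_congr rfl fun a _ => ?_
  rw [map_sum]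
  refine Finset.sum_congr rfl fun b _ => ?_
  rw [map_smul]
  rfl

/-- the scalars and vectors at one point -/
theorem QH.base (hI1 : StI1) (hNR : StNR) (q : QH l f h φ z) :
    h z = f (φ z) ∧ mcv h z = mcv f (φ z) ∧ i3 h z = i3 f (φ z) ∧ wvl l h z = wvl l f (φ z) ∧
      i4 l h z = i4 l f (φ z) := by
  obtain ⟨hLIf, hspan, hdet⟩ := Helper67.PI.spans f h z (φ z) (jac φ z) q.hJ q.li
  have hnrm := Helper67.PI.nrm_eq hNR f h z (φ z) hLIf q.li hspan
  obtain ⟨-, g1, g2, g3, -⟩ := hI1 n N f h φ z q.hf q.hφ q.hh q.li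
  have h0 : h z = f (φ z) := q.hh.self_of_nhds
  have h3 : i3 h z = i3 f (φ z) := by
    unfold i3
    rw [g1, g2, g3]
  have hw : wvl l h z = wvl l f (φ z) := by
    unfold wvl
    rw [hnrm, h0, g1]
  refine ⟨h0, g1, h3, hw, ?_⟩
  unfold i4
  rw [hw, g1, g2, g3]

theorem uvf_eq (f : EE n → EE N) (x : EE n) :
    uvf f x = ∑ p : Fin n × Fin n, ∑ q : Fin n × Fin n,
      ((gram f x)⁻¹ ⊗ₖ (gram f x)⁻¹) p q •
        (Helper23.SH.sm_TF N).flip (sff f x p.1 p.2) (inner ℝ (sff f x q.1 q.2) (mcv f x)) := by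
  simp only [Fintype.sum_prod_type]
  unfold uvf
  refine Finset.sum_congr rfl fun i _ => Finset.sum_congr rfl fun j _ =>
    Finset.sum_congr rfl fun k _ => Finset.sum_congr rfl fun l _ => ?_
  rw [Matrix.kroneckerMap_apply, LinearMap.flip_apply, Helper23.SH.sm_TF_apply, smul_smul]

theorem QH.uvf (hI1 : StI1) (hNR : StNR) (q : QH l f h φ z) :
    Helper32.CL.uvf h z = Helper32.CL.uvf f (φ z) := by
  obtain ⟨-, -, hdet⟩ := Helper67.PI.spans f h z (φ z) (jac φ z) q.hJ q.li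
  have hinv := Helper67.PI.gram_inv f h z (φ z) (jac φ z) q.hJ hdet
  have hk := Helper23.SH.kron_TF _ _ (jac φ z) hinv
  have hm := (q.base hI1 hNR).2.1
  have hs : ∀ p : Fin n × Fin n, Helper35.PI.sff h z p.1 p.2 =
      ∑ r : Fin n × Fin n, (jac φ z ⊗ₖ jac φ z) p r • Helper35.PI.sff f (φ z) r.1 r.2 := by
    intro p
    rw [q.sff hNR, Fintype.sum_prod_type]
    rfl
  have hi : ∀ p : Fin n × Fin n, (inner ℝ (Helper35.PI.sff h z p.1 p.2) (mcv h z) : ℝ) =
      ∑ r : Fin n × Fin n, (jac φ z ⊗ₖ jac φ z) p r •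
        (inner ℝ (Helper35.PI.sff f (φ z) r.1 r.2) (mcv f (φ z)) : ℝ) := by
    intro p
    rw [hs, hm, sum_inner]
    refine Finset.sum_congr rfl fun r _ => ?_
    rw [real_inner_smul_left, smul_eq_mul]
  rw [uvf_eq, uvf_eq]
  exact Helper23.SH.bil_TF _ _ _ (jac φ z ⊗ₖ jac φ z) hk
    (fun p : Fin n × Fin n => Helper35.PI.sff h z p.1 p.2)
    (fun p => Helper35.PI.sff f (φ z) p.1 p.2)
    (fun p : Fin n × Fin n => (inner ℝ (Helper35.PI.sff h z p.1 p.2) (mcv h z) : ℝ))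
    (fun p => (inner ℝ (Helper35.PI.sff f (φ z) p.1 p.2) (mcv f (φ z)) : ℝ)) hs hi

/-- the covector transforms with the Jacobian matrix -/
theorem wc_eq (hI1 : StI1) (hNR : StNR) (hq : ∀ᶠ y in 𝓝 z, QH l f h φ y) (κ : ℝ) (c : Co)
    (hc : c.Smooth) (k : Fin n) :
    wc κ l c h z k = ∑ a, jac φ z k a * wc κ l c f (φ z) a := by
  have q : QH l f h φ z := hq.self_of_nhds
  obtain ⟨-, -, hdet⟩ := Helper67.PI.spans f h z (φ z) (jac φ z) q.hJ q.li
  have hinv := Helper67.PI.gram_inv f h z (φ z) (jac φ z) q.hJ hdet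
  obtain ⟨h0, hm, h3, hw, h4⟩ := q.base hI1 hNR
  have hφd : DifferentiableAt ℝ φ z := q.hφ.differentiableAt (by norm_num)
  have hnv : nvf c h z = nvf c f (φ z) := by
    unfold nvf
    rw [h3, hm, q.uvf hI1 hNR]
  have hev : (fun y => c.φ (i4 l h y)) =ᶠ[𝓝 z] fun y => (fun w => c.φ (i4 l f w)) (φ y) := by
    filter_upwards [hq] with y qy
    show c.φ (i4 l h y) = c.φ (i4 l f (φ y))
    rw [(qy.base hI1 hNR).2.2.2.2]
  have hd : DifferentiableAt ℝ (fun w => c.φ (i4 l f w)) (φ z) := by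
    have h5 : DifferentiableAt ℝ c.φ (i4 l f (φ z)) :=
      (hc.sφ.differentiable (by decide)).differentiableAt
    exact h5.comp (φ z) q.di
  have hD : fderiv ℝ (fun y => c.φ (i4 l h y)) z (ee k) =
      ∑ a, jac φ z k a * fderiv ℝ (fun w => c.φ (i4 l f w)) (φ z) (ee a) := by
    rw [Helper80.PI2.chain (fun w => c.φ (i4 l f w)) _ φ z hd hφd hev k]
    rfl
  have hP : ∀ m, (inner ℝ (h z) (dv1 h z m) : ℝ) =
      ∑ s, jac φ z m s • (inner ℝ (f (φ z)) (dv1 f (φ z) s) : ℝ) := by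
    intro m
    rw [h0, q.hJ m, inner_sum]
    refine Finset.sum_congr rfl fun s _ => ?_
    rw [real_inner_smul_right, smul_eq_mul]
  have hA : ∀ a, (inner ℝ (nvf c h z) (Helper35.PI.sff h z k a) : ℝ) =
      ∑ r, jac φ z a r • (∑ b, jac φ z k b *
        (inner ℝ (nvf c f (φ z)) (Helper35.PI.sff f (φ z) b r) : ℝ)) := by
    intro a
    rw [hnv, q.sff hNR, inner_sum]
    simp_rw [inner_sum, real_inner_smul_right, smul_eq_mul, Finset.mul_sum]
    rw [Finset.sum_comm]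
    refine Finset.sum_congr rfl fun r _ => Finset.sum_congr rfl fun b _ => ?_
    ring
  have hS : ∑ a, ∑ m, (gram h z)⁻¹ a m * ((inner ℝ (nvf c h z) (Helper35.PI.sff h z k a) : ℝ) *
      (inner ℝ (h z) (dv1 h z m) : ℝ)) =
      ∑ b, jac φ z k b * (∑ a, ∑ m, (gram f (φ z))⁻¹ a m *
        ((inner ℝ (nvf c f (φ z)) (Helper35.PI.sff f (φ z) b a) : ℝ) *
          (inner ℝ (f (φ z)) (dv1 f (φ z) m) : ℝ))) := by
    have h6 := Helper23.SH.bil_TF Helper23.SH.mul_TF _ _ (jac φ z) hinv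
      (fun a => (inner ℝ (nvf c h z) (Helper35.PI.sff h z k a) : ℝ))
      (fun r => ∑ b, jac φ z k b *
        (inner ℝ (nvf c f (φ z)) (Helper35.PI.sff f (φ z) b r) : ℝ))
      (fun m => (inner ℝ (h z) (dv1 h z m) : ℝ))
      (fun s => (inner ℝ (f (φ z)) (dv1 f (φ z) s) : ℝ)) hA hP
    simp only [Helper23.SH.mul_TF_apply, smul_eq_mul] at h6
    rw [h6]
    simp_rw [Finset.mul_sum, Finset.sum_mul, Finset.mul_sum]
    have e1 : ∀ r : Fin n, ∑ s, ∑ b, (gram f (φ z))⁻¹ r s * (jac φ z k b *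
        (inner ℝ (nvf c f (φ z)) (Helper35.PI.sff f (φ z) b r) : ℝ) *
          (inner ℝ (f (φ z)) (dv1 f (φ z) s) : ℝ)) =
        ∑ b, ∑ s, jac φ z k b * ((gram f (φ z))⁻¹ r s *
          ((inner ℝ (nvf c f (φ z)) (Helper35.PI.sff f (φ z) b r) : ℝ) *
          (inner ℝ (f (φ z)) (dv1 f (φ z) s) : ℝ))) := by
      intro r
      rw [Finset.sum_comm]
      refine Finset.sum_congr rfl fun b _ => Finset.sum_congr rfl fun s _ => ?_
      ring
    simp_rw [e1]
    exact Finset.sum_comm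
  unfold wc
  rw [hD, hS, hP k, h0, h3]
  simp_rw [smul_eq_mul]
  rw [Finset.mul_sum, ← Finset.sum_add_distrib, Finset.mul_sum, ← Finset.sum_add_distrib,
    Finset.mul_sum]
  refine Finset.sum_congr rfl fun b _ => ?_
  ring

/-- the field at one point -/
theorem wf_eq (hI1 : StI1) (hNR : StNR) (hq : ∀ᶠ y in 𝓝 z, QH l f h φ y) (κ : ℝ) (c : Co)
    (hc : c.Smooth) : wf κ l c h z = wf κ l c f (φ z) := by
  have q : QH l f h φ z := hq.self_of_nhds
  obtain ⟨-, -, hdet⟩ := Helper67.PI.spans f h z (φ z) (jac φ z) q.hJ q.li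
  have hinv := Helper67.PI.gram_inv f h z (φ z) (jac φ z) q.hJ hdet
  have e1 : ∀ k m : Fin n, ((gram h z)⁻¹ k m * wc κ l c h z k) • dv1 h z m
      = (gram h z)⁻¹ k m • ∑ r, ∑ s, (jac φ z k r * jac φ z m s) •
        (wc κ l c f (φ z) r • dv1 f (φ z) s) := by
    intro k m
    rw [wc_eq hI1 hNR hq κ c hc k, q.hJ m, mul_smul]
    congr 1
    rw [Finset.sum_smul]
    refine Finset.sum_congr rfl fun r _ => ?_
    rw [Finset.smul_sum]
    refine Finset.sum_congr rfl fun s _ => ?_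
    rw [smul_smul, smul_smul]
    congr 1
    ring
  unfold wf
  simp_rw [e1]
  rw [Helper67.PI.contr, hinv]
  refine Finset.sum_congr rfl fun r _ => Finset.sum_congr rfl fun s _ => ?_
  rw [smul_smul]

end

/-- Module IV. -/
theorem hIV (hI1 : StI1) (_hFR : StFR) (hNR : StNR) (hSM : StSM) (hSS : StSS) : StIV := by
  intro n N f h φ x hf hφ hh hLI κ l c hc
  have h1le : ∀ m : ℕ, ((m : ℕ∞) : WithTop ℕ∞) ≤ ((⊤ : ℕ∞) : WithTop ℕ∞) :=
    fun m => WithTop.coe_le_coe.2 le_top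
  have h2le : (2 : WithTop ℕ∞) ≤ ((⊤ : ℕ∞) : WithTop ℕ∞) := h1le 2
  have h1le' : (1 : WithTop ℕ∞) ≤ ((⊤ : ℕ∞) : WithTop ℕ∞) := h1le 1
  have hhs : ContDiffAt ℝ ∞ h x := (hf.comp x hφ).congr_of_eventuallyEq hh
  have hLIf : LI f (φ x) :=
    (hI1 n N f h φ x (hf.of_le h2le) (hφ.of_le h2le) hh hLI).1
  have slice : ∀ {V : Type} [NormedAddCommGroup V] [NormedSpace ℝ V] (g : EE n → V) (y : EE n),
      ContDiffAt ℝ ∞ (fun z : EE n × ℝ => g z.1) (y, 0) → ContDiffAt ℝ ∞ g y := by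
    intro V _ _ g y hg
    have h3 : ContDiffAt ℝ ∞ (fun w : EE n => (w, (0 : ℝ))) y :=
      contDiffAt_id.prodMk contDiffAt_const
    have h4 := ContDiffAt.comp (g := fun z : EE n × ℝ => g z.1)
      (f := fun w : EE n => (w, (0 : ℝ))) y hg h3
    exact h4
  have lift : ContDiffAt ℝ ∞ (fun z : EE n × ℝ => f z.1) (φ x, 0) :=
    ContDiffAt.comp (φ x, (0 : ℝ)) hf contDiffAt_fst
  have hSf := hSS n N (fun z => f z.1) (φ x, 0) lift hLIf κ l c hc
  have hi4 : ContDiffAt ℝ ∞ (i4 l f) (φ x) := slice (i4 l f) (φ x) hSf.1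
  have hwf : ContDiffAt ℝ ∞ (wf κ l c f) (φ x) := slice (wf κ l c f) (φ x) hSf.2.2.2.2.1
  have hLIe : ∀ᶠ y in 𝓝 x, LI h y := (Helper80.PI2.smooth1 hSM h x hhs hLI).1
  have hφc : ContinuousAt φ x := hφ.continuousAt
  have hq : ∀ᶠ y in 𝓝 x, QH l f h φ y := by
    filter_upwards [hφc.eventually ((hf.of_le h2le).eventually (by decide)),
      (hφ.of_le h2le).eventually (by decide), hh.eventuallyEq_nhds, hLIe,
      hφc.eventually ((hi4.of_le h1le').eventually (by decide))] with y a1 a2 a3 a4 a5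
    exact ⟨a1, a2, a3, a4, a5.differentiableAt (by norm_num)⟩
  have q : QH l f h φ x := hq.self_of_nhds
  obtain ⟨-, -, -, hw, h4⟩ := q.base hI1 hNR
  have hV : wf κ l c h =ᶠ[𝓝 x] fun y => wf κ l c f (φ y) := by
    filter_upwards [hq.eventually_nhds] with y hy
    exact wf_eq hI1 hNR hy κ c hc
  refine ⟨h4, hw, q.uvf hI1 hNR, fun k => ?_, hV.self_of_nhds, ?_⟩
  · rw [wc_eq hI1 hNR hq κ c hc k]
    refine Finset.sum_congr rfl fun a _ => ?_
    rw [Helper80.PI2.ee_inner]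
    rfl
  -- the divergence
  obtain ⟨-, -, hdet⟩ := Helper67.PI.spans f h x (φ x) (jac φ x) q.hJ q.li
  have hinv := Helper67.PI.gram_inv f h x (φ x) (jac φ x) q.hJ hdet
  have hVd : DifferentiableAt ℝ (wf κ l c f) (φ x) := hwf.differentiableAt (by decide)
  have hφd : DifferentiableAt ℝ φ x := q.hφ.differentiableAt (by norm_num)
  have hdX : ∀ i : Fin n, fderiv ℝ (wf κ l c h) x (ee i)
      = ∑ a, jac φ x i a • fderiv ℝ (wf κ l c f) (φ x) (ee a) := by
    intro i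
    exact Helper80.PI2.chain (wf κ l c f) _ φ x hVd hφd hV i
  unfold dvc
  have e1 : ∀ i j : Fin n, (gram h x)⁻¹ i j * (inner ℝ (fderiv ℝ (wf κ l c h) x (ee i))
      (dv1 h x j) : ℝ) = (gram h x)⁻¹ i j • ∑ r, ∑ s, (jac φ x i r * jac φ x j s) •
        (inner ℝ (fderiv ℝ (wf κ l c f) (φ x) (ee r)) (dv1 f (φ x) s) : ℝ) := by
    intro i j
    rw [smul_eq_mul]
    congr 1
    rw [hdX i, q.hJ j, sum_inner]
    refine Finset.sum_congr rfl fun r _ => ?_
    rw [inner_sum]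
    refine Finset.sum_congr rfl fun s _ => ?_
    rw [real_inner_smul_left, real_inner_smul_right, smul_eq_mul]
    ring
  simp_rw [e1]
  rw [Helper67.PI.contr, hinv]
  rfl

end Pool.Agent.Helper8.CL
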